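import Pool.Agent.KS6_93.SP.Grow

/-!
# The recursive inequality
-/

set_option autoImplicit false

open Finset Filter Topology

namespace Pool.Agent.KS6_93.SP

open Pool.Agent.T6.H85.SetPart

theorem fib_log {m n k : ℕ} (τ : Setoid (Fin k)) (c K : ℕ) (hc1 : 1 ≤ c)
    (hrep : ∀ s : Setoid (Fin (m * n)), ¬ Contains s τ →
      (repI s).card ≤ c * (repB s).card + K) (hm : 1 ≤ m)
    (hn : 1 ≤ n) (lm : ℝ) (h0 : 0 ≤ lm) (h1 : lm ≤ 1)
    (hlm : (1 - lm) * Real.log n = ((c : ℝ) - 1) / c * Real.log ((m * n : ℕ) : ℝ))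
    (X Y : Finset (Fin (m * n))) :
    (Nat.card (Fib (m := m) (n := n) τ X Y) : ℝ) ≤
      Real.exp ((1 - lm) * (m * n : ℕ) * Real.log n +
        K * Real.log ((m * n : ℕ) : ℝ) + lm * m * Real.log (A τ n)) := by
  classical
  rcases Nat.eq_zero_or_pos (Nat.card (Fib (m := m) (n := n) τ X Y)) with h | h
  · rw [h]; simp only [Nat.cast_zero]; positivity
  have hne : Nonempty (Fib (m := m) (n := n) τ X Y) := (Nat.card_pos_iff.1 h).1
  obtain ⟨s, hs, hX, hY⟩ := hne
  have hq := hrep s hs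
  rw [hX, hY] at hq
  have hsub : Y ⊆ X := by
    have := repB_subset s
    rwa [hX, hY] at this
  have hcs : (X \ Y).card = X.card - Y.card := card_sdiff_of_subset hsub
  have hYX : Y.card ≤ X.card := card_le_card hsub
  have hXn : X.card ≤ m * n := by
    have := card_le_univ X
    rwa [Fintype.card_fin] at this
  have f1 := fib_one (m := m) (n := n) τ X Y
  have f2 := fib_two (m := m) (n := n) τ X Y
  set z := Nat.card (Fib (m := m) (n := n) τ X Y) with hz
  set q := X.card with hqd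
  set b := Y.card with hbd
  set N := m * n with hN
  have hNpos : 0 < N := by positivity
  have hcpos : (0 : ℝ) < z := by exact_mod_cast h
  have hApos : 0 < A τ n := by
    rcases Nat.eq_zero_or_pos (A τ n) with h' | h'
    · rw [h'] at f2
      rw [zero_pow (by omega), zero_mul] at f2
      omega
    · exact h'
  have hlogN : 0 ≤ Real.log (N : ℝ) := Real.log_natCast_nonneg _
  have hlogn : 0 ≤ Real.log (n : ℝ) := Real.log_natCast_nonneg _
  have hnR : (0 : ℝ) < n := by exact_mod_cast hn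
  have hNR : (0 : ℝ) < N := by exact_mod_cast hNpos
  have g1 : Real.log z ≤ ((N : ℝ) - q) * Real.log n + ((q : ℝ) - b) * Real.log N := by
    have : (z : ℝ) ≤ (n : ℝ) ^ (N - q) * (N : ℝ) ^ (q - b) := by
      rw [hcs] at f1; exact_mod_cast f1
    have h2 := Real.log_le_log hcpos this
    rw [Real.log_mul (by positivity) (by positivity), Real.log_pow, Real.log_pow,
      Nat.cast_sub hXn, Nat.cast_sub hYX] at h2
    exact h2
  have g2 : Real.log z ≤ m * Real.log (A τ n) + ((q : ℝ) - b) * Real.log N := by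
    have hA' : (0 : ℝ) < A τ n := by exact_mod_cast hApos
    have : (z : ℝ) ≤ (A τ n : ℝ) ^ m * (N : ℝ) ^ (q - b) := by
      rw [hcs] at f2; exact_mod_cast f2
    have h2 := Real.log_le_log hcpos this
    rw [Real.log_mul (by positivity) (by positivity), Real.log_pow, Real.log_pow,
      Nat.cast_sub hYX] at h2
    exact h2
  have hcR : (1 : ℝ) ≤ c := by exact_mod_cast hc1
  have hqR : (q : ℝ) ≤ (c : ℝ) * b + K := by exact_mod_cast hq
  have hqb : (q : ℝ) - b ≤ ((c : ℝ) - 1) / c * q + K := by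
    have hc0 : (0 : ℝ) < c := by linarith
    have hK0 : (0 : ℝ) ≤ K := by positivity
    rw [← sub_nonneg]
    have e : ((c : ℝ) - 1) / c * q + K - ((q : ℝ) - b) =
        ((c : ℝ) * b + K - q + ((c : ℝ) - 1) * K) / c := by
      field_simp
      ring
    rw [e]
    apply div_nonneg _ hc0.le
    have : 0 ≤ ((c : ℝ) - 1) * K := mul_nonneg (by linarith) hK0
    linarith
  have g3 : Real.log z ≤ (1 - lm) * N * Real.log n + K * Real.log N +
      lm * m * Real.log (A τ n) := by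
    have e1 : Real.log z = (1 - lm) * Real.log z + lm * Real.log z := by ring
    have a1 := mul_le_mul_of_nonneg_left g1 (by linarith : 0 ≤ 1 - lm)
    have a2 := mul_le_mul_of_nonneg_left g2 h0
    have a3 := mul_le_mul_of_nonneg_right hqb hlogN
    have a4 : (((c : ℝ) - 1) / c * q + K) * Real.log N =
        q * ((1 - lm) * Real.log n) + K * Real.log N := by rw [hlm]; ring
    rw [a4] at a3
    have e2 : (1 - lm) * (((N : ℝ) - q) * Real.log n + ((q : ℝ) - b) * Real.log N) +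
        lm * (m * Real.log (A τ n) + ((q : ℝ) - b) * Real.log N) =
        (1 - lm) * N * Real.log n - q * ((1 - lm) * Real.log n) + ((q : ℝ) - b) * Real.log N +
          lm * m * Real.log (A τ n) := by ring
    linarith
  calc (z : ℝ) = Real.exp (Real.log z) := (Real.exp_log hcpos).symm
    _ ≤ _ := Real.exp_le_exp.2 g3

theorem step_ineq {m n k : ℕ} (τ : Setoid (Fin k)) (c K : ℕ) (hc1 : 1 ≤ c)
    (hrep : ∀ s : Setoid (Fin (m * n)), ¬ Contains s τ →
      (repI s).card ≤ c * (repB s).card + K) (hm : 1 ≤ m)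
    (hn : 2 ≤ n) (lm : ℝ) (h0 : 0 ≤ lm) (h1 : lm ≤ 1)
    (hlm : (1 - lm) * Real.log n = ((c : ℝ) - 1) / c * Real.log ((m * n : ℕ) : ℝ)) :
    Real.log (A τ (m * n)) / ((m * n : ℕ) * Real.log ((m * n : ℕ) : ℝ)) ≤
      Real.log 4 / Real.log ((m * n : ℕ) : ℝ) + ((c : ℝ) - 1) / c +
      K / ((m * n : ℕ) : ℝ) +
      lm * (Real.log n / Real.log ((m * n : ℕ) : ℝ)) * (Real.log (A τ n) / (n * Real.log n)) := by
  set E := ((1 - lm) * (m * n : ℕ) * Real.log n +
        K * Real.log ((m * n : ℕ) : ℝ) + lm * m * Real.log (A τ n)) with hE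
  have hA := A_le (m := m) (n := n) τ (Real.exp E) (Real.exp_pos _).le
    (fun X Y => fib_log τ c K hc1 hrep hm (by omega) lm h0 h1 hlm X Y)
  have hN2 : 2 ≤ m * n := by nlinarith
  have hNR : (2 : ℝ) ≤ ((m * n : ℕ) : ℝ) := by exact_mod_cast hN2
  have hlogN : 0 < Real.log ((m * n : ℕ) : ℝ) := Real.log_pos (by linarith)
  have hnR : (2 : ℝ) ≤ (n : ℝ) := by exact_mod_cast hn
  have hlogn : 0 < Real.log (n : ℝ) := Real.log_pos (by linarith)
  have hlog4 : 0 ≤ Real.log 4 := Real.log_nonneg (by norm_num)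
  have hlogA : 0 ≤ Real.log (A τ n : ℝ) := Real.log_natCast_nonneg _
  have hE0 : 0 ≤ E := by
    have : 0 ≤ 1 - lm := by linarith
    positivity
  have hlog : Real.log (A τ (m * n)) ≤ E + (m * n : ℕ) * Real.log 4 := by
    rcases Nat.eq_zero_or_pos (A τ (m * n)) with h | h
    · rw [h]; simp only [Nat.cast_zero, Real.log_zero]; positivity
    · have h' : (0 : ℝ) < A τ (m * n) := by exact_mod_cast h
      have h2 := Real.log_le_log h' hA
      rw [Real.log_mul (Real.exp_pos _).ne' (by positivity), Real.log_exp, Real.log_pow] at h2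
      exact h2
  have hmR : (0 : ℝ) < m := by exact_mod_cast hm
  have hcast : ((m * n : ℕ) : ℝ) = m * n := by push_cast; ring
  rw [div_le_iff₀ (by positivity)]
  refine hlog.trans (le_of_eq ?_)
  rw [hE]
  have e1 : (1 - lm) * ((m * n : ℕ) : ℝ) * Real.log n =
      ((c : ℝ) - 1) / c * Real.log ((m * n : ℕ) : ℝ) * ((m * n : ℕ) : ℝ) := by
    rw [← hlm]; ring
  rw [e1]
  have e2 : lm * (Real.log n / Real.log ((m * n : ℕ) : ℝ)) * (Real.log (A τ n) / (n * Real.log n)) *
      (((m * n : ℕ) : ℝ) * Real.log ((m * n : ℕ) : ℝ)) = lm * m * Real.log (A τ n) := by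
    rw [hcast] at hlogN ⊢
    field_simp
  have e3 : Real.log 4 / Real.log ((m * n : ℕ) : ℝ) *
      (((m * n : ℕ) : ℝ) * Real.log ((m * n : ℕ) : ℝ)) = ((m * n : ℕ) : ℝ) * Real.log 4 := by
    field_simp
  have e4 : (K : ℝ) / ((m * n : ℕ) : ℝ) *
      (((m * n : ℕ) : ℝ) * Real.log ((m * n : ℕ) : ℝ)) =
      (K : ℝ) * Real.log ((m * n : ℕ) : ℝ) := by
    have : ((m * n : ℕ) : ℝ) ≠ 0 := by positivity
    field_simp
  rw [add_mul, add_mul, add_mul, e2, e3, e4]
  ring

/-- The inequality along the numbers `t ^ (c * s + 1)`. -/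
theorem seq_ineq {k : ℕ} (τ : Setoid (Fin k)) (c : ℕ) (hk : 1 ≤ k) (hc1 : 1 ≤ c)
    (hc : k ≤ Nat.card (Quotient τ) + c) (s t : ℕ) (ht : 2 ≤ t) :
    Real.log (A τ (t ^ (c * s + 1))) / ((t ^ (c * s + 1) : ℕ) *
        Real.log ((t ^ (c * s + 1) : ℕ) : ℝ)) ≤
      Real.log 4 / Real.log ((t ^ (c * s + 1) : ℕ) : ℝ) +
      ((c : ℝ) - 1) / c + (c : ℝ) * (k * k) / t + 1 / ((c : ℝ) * (c * s + 1)) := by
  set m := t ^ s with hm
  set n := t ^ ((c - 1) * s + 1) with hn
  have hcR : (1 : ℝ) ≤ c := by exact_mod_cast hc1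
  have hc0 : (0 : ℝ) < c := by linarith
  have htR : (2 : ℝ) ≤ t := by exact_mod_cast ht
  have hlt : 0 < Real.log t := Real.log_pos (by linarith)
  have hmn : m * n = t ^ (c * s + 1) := by
    rw [hm, hn, ← pow_add]
    congr 1
    obtain ⟨j, rfl⟩ := Nat.exists_eq_add_of_le hc1
    have e1 : 1 + j - 1 = j := by omega
    rw [e1]; ring
  have hm1 : 1 ≤ m := Nat.one_le_pow _ _ (by omega)
  have hn2 : 2 ≤ n := by
    rw [hn]
    calc 2 ≤ t := ht
      _ = t ^ 1 := (pow_one t).symm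
      _ ≤ _ := Nat.pow_le_pow_right (by omega) (by omega)
  set P : ℝ := (c : ℝ) * s + 1 with hP
  set P' : ℝ := ((c : ℝ) - 1) * s + 1 with hP'
  have hs0 : (0 : ℝ) ≤ s := Nat.cast_nonneg s
  have hPpos : 0 < P := by positivity
  have hP'pos : 0 < P' := by
    have := mul_nonneg (by linarith : (0 : ℝ) ≤ (c : ℝ) - 1) hs0
    linarith
  have hlogN : Real.log ((m * n : ℕ) : ℝ) = P * Real.log t := by
    rw [hmn]
    push_cast
    rw [Real.log_pow]
    push_cast
    rw [hP]
  have hlogn : Real.log (n : ℝ) = P' * Real.log t := by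
    rw [hn]
    push_cast
    rw [Real.log_pow]
    push_cast [Nat.cast_sub hc1]
    rw [hP']
  set lm : ℝ := 1 - ((c : ℝ) - 1) / c * (P / P') with hlm
  have hfrac : 0 ≤ ((c : ℝ) - 1) / c := div_nonneg (by linarith) hc0.le
  have hlm1 : lm ≤ 1 := by
    have : 0 ≤ ((c : ℝ) - 1) / c * (P / P') := by positivity
    linarith
  have hlm0 : 0 ≤ lm := by
    have : ((c : ℝ) - 1) / c * (P / P') ≤ 1 := by
      rw [div_mul_div_comm, div_le_one (by positivity)]
      rw [hP, hP']
      nlinarith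
    linarith
  have h := step_ineq τ c (c * (k * k * m ^ c)) hc1
    (fun s hs => repI_repB s τ c hk hc1 hc hs) hm1 hn2 lm hlm0 hlm1 (by
    rw [hlogN, hlogn, hlm]; field_simp; ring)
  rw [hlogN, hlogn] at h
  have hmn' : ((t ^ (c * s + 1) : ℕ) : ℝ) = ((m * n : ℕ) : ℝ) := by rw [hmn]
  rw [← hmn, hlogN]
  refine h.trans ?_
  have e1 : lm * (P' * Real.log t / (P * Real.log t)) = 1 / (c * P) := by
    rw [hlm]
    field_simp
    rw [hP, hP']
    ring
  have e2 : ((c * (k * k * m ^ c) : ℕ) : ℝ) / ((m * n : ℕ) : ℝ) =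
      (c : ℝ) * (k * k) / t := by
    rw [hmn, hm]
    push_cast
    rw [pow_succ, ← pow_mul, mul_comm s c]
    have : (t : ℝ) ≠ 0 := by positivity
    field_simp
  rw [e1, e2]
  have hF := F_le_one τ n hn2
  rw [hlogn] at hF
  have h3 : 1 / ((c : ℝ) * P) * (Real.log (A τ n) / (n * (P' * Real.log t))) ≤
      1 / ((c : ℝ) * P) * 1 := mul_le_mul_of_nonneg_left hF (by positivity)
  linarith

end Pool.Agent.KS6_93.SP
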