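import Pool.Graph.R_pool_sql_team_seeded_47a924f7.T6.H85.SetPart.Count

/-!
# Placing a partition `τ` of `[k]` with `r` blocks in `k - r + 1` parts
-/

set_option autoImplicit false

open Finset

namespace Pool.Agent.KS6_93.SP

open Pool.Agent.T6.H85.SetPart

/-- `l` is the least element of its block -/
def IsFirst (R : ℕ → ℕ → Prop) (l : ℕ) : Prop := ∀ l' < l, ¬ R l' l

open Classical in
/-- the part which receives the `l`-th element: the number of elements `1 ≤ l' ≤ l` which are not
the least element of their block -/
noncomputable def part (R : ℕ → ℕ → Prop) : ℕ → ℕ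
  | 0 => 0
  | l + 1 => if IsFirst R (l + 1) then part R l else part R l + 1

theorem part_first {R : ℕ → ℕ → Prop} {l : ℕ} (h : IsFirst R (l + 1)) :
    part R (l + 1) = part R l := by
  simp only [part, if_pos h]

theorem part_nonfirst {R : ℕ → ℕ → Prop} {l : ℕ} (h : ¬ IsFirst R (l + 1)) :
    part R (l + 1) = part R l + 1 := by
  simp only [part, if_neg h]

theorem part_le_succ (R : ℕ → ℕ → Prop) (l : ℕ) : part R l ≤ part R (l + 1) := by
  by_cases h : IsFirst R (l + 1)
  · rw [part_first h]
  · rw [part_nonfirst h]; omega

theorem part_mono (R : ℕ → ℕ → Prop) : Monotone (part R) :=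
  monotone_nat_of_le_succ (part_le_succ R)

/-- In a finite set with an injective `x`, at most `q + 1` elements have at most `q` elements
above them. -/
theorem card_top_le {X : Type*} [DecidableEq X] (F : Finset X) (x : X → ℕ)
    (hx : Set.InjOn x F) (q : ℕ) :
    (F.filter (fun a => (F.filter (fun b => x a < x b)).card ≤ q)).card ≤ q + 1 := by
  classical
  set Z := F.filter (fun a => (F.filter (fun b => x a < x b)).card ≤ q) with hZ
  by_contra hcon
  push Not at hcon
  have hne : Z.Nonempty := card_pos.1 (by omega)
  obtain ⟨z, hzZ, hz⟩ := exists_min_image Z x hne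
  have hzF : z ∈ F := (mem_filter.1 hzZ).1
  have h1 : (Z.erase z) ⊆ F.filter (fun b => x z < x b) := by
    intro b hb
    rw [mem_erase] at hb
    have hbF : b ∈ F := (mem_filter.1 hb.2).1
    rw [mem_filter]
    refine ⟨hbF, lt_of_le_of_ne (hz b hb.2) ?_⟩
    intro h
    exact hb.1 (hx hzF hbF h).symm
  have h2 := card_le_card h1
  rw [card_erase_of_mem hzZ] at h2
  have h3 := (mem_filter.1 hzZ).2
  omega

/-- The blocks of a partition can be embedded in every sufficiently large set with one injective
weight for every part. -/
theorem embed {X : Type*} [DecidableEq X] (R : ℕ → ℕ → Prop)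
    (hrefl : ∀ a, R a a) (hsymm : ∀ a b, R a b → R b a)
    (htrans : ∀ a b c, R a b → R b c → R a c) (x : ℕ → X → ℕ) (j : ℕ) :
    ∀ F : Finset X, (j + 1) * (j + 1) ≤ F.card → (∀ p ≤ part R j, Set.InjOn (x p) F) →
      ∃ b : ℕ → X, (∀ l ≤ j, b l ∈ F) ∧ (∀ l ≤ j, ∀ l' ≤ j, (b l = b l' ↔ R l l')) ∧
        (∀ l < j, IsFirst R (l + 1) →
          x (part R (l + 1)) (b l) < x (part R (l + 1)) (b (l + 1))) := by
  classical
  induction j with
  | zero =>
    intro F hF _
    obtain ⟨a, ha⟩ := card_pos.1 (by omega : 0 < F.card)
    refine ⟨fun _ => a, fun l _ => ha, ?_, fun l hl => absurd hl (Nat.not_lt_zero _)⟩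
    intro l hl l' hl'
    have e1 : l = 0 := by omega
    have e2 : l' = 0 := by omega
    subst e1; subst e2
    exact ⟨fun _ => hrefl 0, fun _ => rfl⟩
  | succ j ih =>
    intro F hF hinj
    by_cases hfirst : IsFirst R (j + 1)
    · -- a new block
      have hpe : part R (j + 1) = part R j := part_first hfirst
      have hI := hinj (part R (j + 1)) le_rfl
      have htop := card_top_le F (x (part R (j + 1))) hI (j + 1)
      set F' := F.filter (fun a => ¬ (F.filter
        (fun b => x (part R (j + 1)) a < x (part R (j + 1)) b)).card ≤ j + 1) with hF'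
      have hsum := card_filter_add_card_filter_not (s := F) (fun a => (F.filter
        (fun b => x (part R (j + 1)) a < x (part R (j + 1)) b)).card ≤ j + 1)
      have hF'c : (j + 1) * (j + 1) ≤ F'.card := by
        rw [hF']
        nlinarith
      have hF'sub : F' ⊆ F := filter_subset _ _
      obtain ⟨b, hb1, hb2, hb3⟩ := ih F' hF'c (fun p hp => (hinj p (hp.trans (part_le_succ R j))).mono
        (by exact_mod_cast hF'sub))
      have hbj := (mem_filter.1 (hb1 j le_rfl)).2
      set U := F.filter (fun y => x (part R (j + 1)) (b j) < x (part R (j + 1)) y) with hU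
      have hUc : ((range (j + 1)).image b).card < U.card := by
        refine lt_of_le_of_lt card_image_le ?_
        rw [card_range]
        omega
      obtain ⟨y, hyU, hyn⟩ := exists_mem_notMem_of_card_lt_card hUc
      have hyF : y ∈ F := (mem_filter.1 hyU).1
      have hyx := (mem_filter.1 hyU).2
      have hyb : ∀ l ≤ j, b l ≠ y := by
        intro l hl h
        apply hyn
        rw [mem_image]
        exact ⟨l, mem_range.2 (by omega), h⟩
      refine ⟨Function.update b (j + 1) y, ?_, ?_, ?_⟩
      · intro l hl
        by_cases h : l = j + 1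
        · subst h; rw [Function.update_self]; exact hyF
        · rw [Function.update_of_ne h]
          exact hF'sub (hb1 l (by omega))
      · intro l hl l' hl'
        by_cases h : l = j + 1
        · subst h
          rw [Function.update_self]
          by_cases h' : l' = j + 1
          · subst h'
            rw [Function.update_self]
            exact ⟨fun _ => hrefl _, fun _ => rfl⟩
          · rw [Function.update_of_ne h']
            refine ⟨fun h1 => absurd h1.symm (hyb l' (by omega)), fun h1 => ?_⟩
            exact absurd (hsymm _ _ h1) (hfirst l' (by omega))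
        · rw [Function.update_of_ne h]
          by_cases h' : l' = j + 1
          · subst h'
            rw [Function.update_self]
            refine ⟨fun h1 => absurd h1 (hyb l (by omega)), fun h1 => ?_⟩
            exact absurd h1 (hfirst l (by omega))
          · rw [Function.update_of_ne h']
            exact hb2 l (by omega) l' (by omega)
      · intro l hl hl1
        rw [Function.update_of_ne (by omega : l ≠ j + 1)]
        by_cases h : l = j
        · subst h
          rw [Function.update_self]
          exact hyx
        · rw [Function.update_of_ne (by omega : l + 1 ≠ j + 1)]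
          exact hb3 l (by omega) hl1
    · -- an old block
      have hnf := hfirst
      unfold IsFirst at hnf
      push Not at hnf
      obtain ⟨l₀, hl₀, hR₀⟩ := hnf
      obtain ⟨b, hb1, hb2, hb3⟩ := ih F (by nlinarith)
        (fun p hp => hinj p (hp.trans (part_le_succ R j)))
      refine ⟨Function.update b (j + 1) (b l₀), ?_, ?_, ?_⟩
      · intro l hl
        by_cases h : l = j + 1
        · subst h; rw [Function.update_self]; exact hb1 l₀ (by omega)
        · rw [Function.update_of_ne h]
          exact hb1 l (by omega)
      · intro l hl l' hl'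
        by_cases h : l = j + 1
        · subst h
          rw [Function.update_self]
          by_cases h' : l' = j + 1
          · subst h'
            rw [Function.update_self]
            exact ⟨fun _ => hrefl _, fun _ => rfl⟩
          · rw [Function.update_of_ne h', hb2 l₀ (by omega) l' (by omega)]
            exact ⟨fun h1 => htrans _ _ _ (hsymm _ _ hR₀) h1, fun h1 => htrans _ _ _ hR₀ h1⟩
        · rw [Function.update_of_ne h]
          by_cases h' : l' = j + 1
          · subst h'
            rw [Function.update_self, hb2 l (by omega) l₀ (by omega)]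
            exact ⟨fun h1 => htrans _ _ _ h1 hR₀, fun h1 => htrans _ _ _ h1 (hsymm _ _ hR₀)⟩
          · rw [Function.update_of_ne h']
            exact hb2 l (by omega) l' (by omega)
      · intro l hl hl1
        have hlj : l ≠ j := by
          rintro rfl
          exact hfirst hl1
        rw [Function.update_of_ne (by omega : l ≠ j + 1),
          Function.update_of_ne (by omega : l + 1 ≠ j + 1)]
        exact hb3 l (by omega) hl1

/-- the relation on `ℕ` given by a partition of `[k]` (all elements outside of `[k]` are
singletons) -/
def rel {k : ℕ} (τ : Setoid (Fin k)) (a b : ℕ) : Prop :=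
  a = b ∨ ∃ ha : a < k, ∃ hb : b < k, τ.r ⟨a, ha⟩ ⟨b, hb⟩

theorem rel_refl {k : ℕ} (τ : Setoid (Fin k)) (a : ℕ) : rel τ a a := Or.inl rfl

theorem rel_symm {k : ℕ} (τ : Setoid (Fin k)) (a b : ℕ) (h : rel τ a b) : rel τ b a := by
  rcases h with h | ⟨ha, hb, h⟩
  · exact Or.inl h.symm
  · exact Or.inr ⟨hb, ha, τ.symm h⟩

theorem rel_trans {k : ℕ} (τ : Setoid (Fin k)) (a b c : ℕ) (h : rel τ a b) (h' : rel τ b c) :
    rel τ a c := by
  rcases h with rfl | ⟨ha, hb, h⟩
  · exact h'
  · rcases h' with rfl | ⟨hb', hc, h'⟩
    · exact Or.inr ⟨ha, hb, h⟩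
    · exact Or.inr ⟨ha, hc, τ.trans h h'⟩

theorem rel_iff {k : ℕ} (τ : Setoid (Fin k)) (a b : Fin k) : rel τ a b ↔ τ.r a b := by
  constructor
  · rintro (h | ⟨ha, hb, h⟩)
    · rw [Fin.ext h]
    · exact h
  · intro h
    exact Or.inr ⟨a.2, b.2, h⟩

end Pool.Agent.KS6_93.SP
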