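import Pool.Agent.KS6_93.SP.Sum

/-!
# Growth bounds
-/

set_option autoImplicit false

open Finset

namespace Pool.Agent.KS6_93.SP

open Pool.Agent.T6.H85.SetPart

theorem A_succ {k : ℕ} (τ : Setoid (Fin k)) (n : ℕ) : A τ (n + 1) ≤ A τ n * (n + 1) := by
  classical
  have hc : Nat.card ({s : Setoid (Fin n) // ¬ Contains s τ} × Option (Fin n)) =
      A τ n * (n + 1) := by
    rw [Nat.card_prod]
    congr 1
    rw [Nat.card_eq_fintype_card, Fintype.card_option, Fintype.card_fin]
  rw [← hc]
  unfold A
  refine Nat.card_le_card_of_injective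
    (fun s => (⟨s.1.comap Fin.castSucc, ?_⟩,
      if h : ∃ x : Fin n, s.1.r x.castSucc (Fin.last n) then some h.choose else none)) ?_
  · rintro ⟨f, hf, h⟩
    exact s.2 ⟨fun x => (f x).castSucc, fun x y hxy => Fin.castSucc_lt_castSucc_iff.2 (hf hxy), h⟩
  · rintro ⟨s, hs⟩ ⟨s', hs'⟩ h
    simp only [Prod.mk.injEq, Subtype.mk.injEq] at h
    obtain ⟨h1, h2⟩ := h
    apply Subtype.ext
    simp only
    have hc1 : ∀ x y : Fin n, s.r x.castSucc y.castSucc ↔ s'.r x.castSucc y.castSucc := by
      intro x y
      have h3 : (s.comap Fin.castSucc).r x y ↔ (s'.comap Fin.castSucc).r x y := by rw [h1]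
      exact h3
    have hc2 : ∀ x : Fin n, s.r x.castSucc (Fin.last n) ↔ s'.r x.castSucc (Fin.last n) := by
      intro x
      by_cases hA : ∃ x : Fin n, s.r x.castSucc (Fin.last n)
      · by_cases hB : ∃ x : Fin n, s'.r x.castSucc (Fin.last n)
        · rw [dif_pos hA, dif_pos hB, Option.some.injEq] at h2
          have hA' := hA.choose_spec
          have hB' := hB.choose_spec
          rw [← h2] at hB'
          constructor
          · intro h
            exact s'.trans ((hc1 _ _).1 (s.trans h (s.symm hA'))) hB'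
          · intro h
            exact s.trans ((hc1 _ _).2 (s'.trans h (s'.symm hB'))) hA'
        · rw [dif_pos hA, dif_neg hB] at h2
          exact absurd h2 (by simp)
      · by_cases hB : ∃ x : Fin n, s'.r x.castSucc (Fin.last n)
        · rw [dif_neg hA, dif_pos hB] at h2
          exact absurd h2 (by simp)
        · exact ⟨fun h => absurd ⟨x, h⟩ hA, fun h => absurd ⟨x, h⟩ hB⟩
    ext x y
    induction x using Fin.lastCases with
    | last =>
      induction y using Fin.lastCases with
      | last => exact ⟨fun _ => s'.refl _, fun _ => s.refl _⟩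
      | cast y =>
        exact ⟨fun h => s'.symm ((hc2 y).1 (s.symm h)), fun h => s.symm ((hc2 y).2 (s'.symm h))⟩
    | cast x =>
      induction y using Fin.lastCases with
      | last => exact hc2 x
      | cast y => exact hc1 x y

theorem A_add {k : ℕ} (τ : Setoid (Fin k)) (n j : ℕ) : A τ (n + j) ≤ A τ n * (n + j) ^ j := by
  induction j with
  | zero => simp
  | succ j ih =>
    calc A τ (n + (j + 1)) ≤ A τ (n + j) * (n + j + 1) := A_succ τ (n + j)
      _ ≤ (A τ n * (n + j) ^ j) * (n + j + 1) := Nat.mul_le_mul_right _ ih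
      _ ≤ (A τ n * (n + j + 1) ^ j) * (n + j + 1) := by
          apply Nat.mul_le_mul_right
          apply Nat.mul_le_mul_left
          exact Nat.pow_le_pow_left (by omega) _
      _ = A τ n * (n + (j + 1)) ^ (j + 1) := by
          rw [← add_assoc, pow_succ]; ring

theorem A_zero_le {k : ℕ} (τ : Setoid (Fin k)) : A τ 0 ≤ 1 := by
  unfold A
  have : Subsingleton {s : Setoid (Fin 0) // ¬ Contains s τ} := by
    constructor
    intro a b
    apply Subtype.ext
    ext x
    exact Fin.elim0 x
  rw [← Finite.card_le_one_iff_subsingleton] at this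
  exact this

theorem A_le_pow {k : ℕ} (τ : Setoid (Fin k)) (n : ℕ) : A τ n ≤ n ^ n := by
  have h := A_add τ 0 n
  rw [zero_add] at h
  exact h.trans (by nlinarith [A_zero_le τ, Nat.zero_le (n ^ n)])

theorem F_le_one {k : ℕ} (τ : Setoid (Fin k)) (n : ℕ) (hn : 2 ≤ n) :
    Real.log (A τ n) / (n * Real.log n) ≤ 1 := by
  have hnR : (2 : ℝ) ≤ n := by exact_mod_cast hn
  have hlog : 0 < Real.log (n : ℝ) := Real.log_pos (by linarith)
  rw [div_le_one (by positivity)]
  rcases Nat.eq_zero_or_pos (A τ n) with h | h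
  · rw [h]; simp only [Nat.cast_zero, Real.log_zero]; positivity
  · have h' : (0 : ℝ) < A τ n := by exact_mod_cast h
    have h2 : (A τ n : ℝ) ≤ (n : ℝ) ^ n := by exact_mod_cast A_le_pow τ n
    have h3 := Real.log_le_log h' h2
    rwa [Real.log_pow] at h3

end Pool.Agent.KS6_93.SP
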