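import Pool.Agent.KS6_93.SP.Embed

/-!
# Few blocks meet the same intervals
-/

set_option autoImplicit false

open Finset

namespace Pool.Agent.KS6_93.SP

open Pool.Agent.T6.H85.SetPart

open Classical in
theorem part_add_firsts (R : ℕ → ℕ → Prop) (l : ℕ) :
    part R l + ((range (l + 1)).filter (fun a => IsFirst R a)).card = l + 1 := by
  induction l with
  | zero =>
    have h0 : IsFirst R 0 := fun l' hl' => absurd hl' (Nat.not_lt_zero _)
    rw [zero_add, range_one, filter_singleton, if_pos h0]
    simp [part]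
  | succ l ih =>
    rw [range_add_one, filter_insert]
    by_cases h : IsFirst R (l + 1)
    · rw [if_pos h, part_first h, card_insert_of_notMem (by simp)]
      omega
    · rw [if_neg h, part_nonfirst h]
      omega

open Classical in
theorem card_quot_le_firsts {k : ℕ} (τ : Setoid (Fin k)) :
    Nat.card (Quotient τ) ≤ ((range k).filter (fun a => IsFirst (rel τ) a)).card := by
  rw [Nat.card_eq_fintype_card, ← card_univ]
  by_cases hk : k = 0
  · subst hk
    have : (univ : Finset (Quotient τ)) = ∅ := by
      rw [eq_empty_iff_forall_notMem]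
      intro q _
      exact Fin.elim0 q.out
    rw [this]; simp
  have hne : Nonempty (Fin k) := ⟨⟨0, by omega⟩⟩
  have hsub : (univ : Finset (Quotient τ)) ⊆
      ((range k).filter (fun a => IsFirst (rel τ) a)).image
        (fun a => if h : a < k then Quotient.mk τ ⟨a, h⟩ else Quotient.mk τ hne.some) := by
    intro q _
    rw [mem_image]
    have hex : ∃ a, rel τ a (q.out : Fin k) := ⟨_, rel_refl τ _⟩
    set a := Nat.find hex with ha
    have ha1 : rel τ a (q.out : Fin k) := Nat.find_spec hex
    have ha2 : a ≤ (q.out : Fin k) := Nat.find_min' hex (rel_refl τ _)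
    have hak : a < k := lt_of_le_of_lt ha2 (Fin.is_lt _)
    refine ⟨a, ?_, ?_⟩
    · rw [mem_filter, mem_range]
      refine ⟨hak, fun l' hl' hR => ?_⟩
      exact Nat.find_min hex hl' (rel_trans τ _ _ _ hR ha1)
    · rw [dif_pos hak]
      have h1 : τ.r ⟨a, hak⟩ q.out := (rel_iff τ ⟨a, hak⟩ q.out).1 ha1
      have h2 : Quotient.mk τ ⟨a, hak⟩ = Quotient.mk τ q.out := Quotient.sound h1
      rw [h2, Quotient.out_eq]
  exact (card_le_card hsub).trans card_image_le

theorem part_le {k : ℕ} (τ : Setoid (Fin k)) (c : ℕ) (hk : 1 ≤ k)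
    (hc : k ≤ Nat.card (Quotient τ) + c) : part (rel τ) (k - 1) ≤ c := by
  classical
  have h1 := part_add_firsts (rel τ) (k - 1)
  have h2 := card_quot_le_firsts τ
  have e : k - 1 + 1 = k := by omega
  rw [e] at h1
  omega

theorem hit {m n k : ℕ} (s : Setoid (Fin (m * n))) (τ : Setoid (Fin k)) (c : ℕ) (hk : 1 ≤ k)
    (hc : k ≤ Nat.card (Quotient τ) + c) (hs : ¬ Contains s τ)
    (F : Finset (Quotient s)) (I : Quotient s → ℕ → Fin m)
    (hI : ∀ B ∈ F, ∀ p ≤ c, Hits s B (I B p))
    (hlt : ∀ B ∈ F, ∀ B' ∈ F, ∀ p < c, I B p < I B' (p + 1)) : F.card < k * k := by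
  classical
  by_contra hcard
  push Not at hcard
  apply hs
  have hFne : F.Nonempty := card_pos.1 (by nlinarith)
  obtain ⟨B₀, hB₀⟩ := hFne
  have : Nonempty (Fin (m * n)) := ⟨B₀.out⟩
  have hex : ∀ B ∈ F, ∀ p ≤ c, ∃ z : Fin (m * n), Quotient.mk s z = B ∧
      ∃ y : Fin n, z = el (I B p) y := by
    intro B hB p hp
    obtain ⟨y, hy⟩ := hI B hB p hp
    exact ⟨el (I B p) y, hy, y, rfl⟩
  choose! z hz1 hz2 using hex
  set R := rel τ with hR
  have hpc : part R (k - 1) ≤ c := part_le τ c hk hc
  obtain ⟨b, hb1, hb2, hb3⟩ := embed R (rel_refl τ) (rel_symm τ) (rel_trans τ)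
    (fun p B => (z B p : ℕ)) (k - 1) F (by
      have e : k - 1 + 1 = k := by omega
      rw [e]; exact hcard) (by
      intro p hp B hB B' hB' h
      have h1 : z B p = z B' p := Fin.ext h
      rw [← hz1 B hB p (hp.trans hpc), ← hz1 B' hB' p (hp.trans hpc), h1])
  have hstep : ∀ l, l + 1 < k → z (b l) (part R l) < z (b (l + 1)) (part R (l + 1)) := by
    intro l hl
    have hle : part R (l + 1) ≤ c := (part_mono R (by omega : l + 1 ≤ k - 1)).trans hpc
    by_cases h : IsFirst R (l + 1)
    · have h1 := hb3 l (by omega) h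
      have e := part_first h
      rw [e] at h1 ⊢
      exact h1
    · have e := part_nonfirst h
      rw [e] at hle ⊢
      have hB := hb1 l (by omega)
      have hB' := hb1 (l + 1) (by omega)
      obtain ⟨y, hy⟩ := hz2 (b l) hB (part R l) (by omega)
      obtain ⟨y', hy'⟩ := hz2 (b (l + 1)) hB' (part R l + 1) hle
      rw [hy, hy']
      exact el_lt_of_lt y y' (hlt _ hB _ hB' _ (by omega))
  have hmono : ∀ d l, l + d + 1 < k →
      z (b l) (part R l) < z (b (l + d + 1)) (part R (l + d + 1)) := by
    intro d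
    induction d with
    | zero => intro l hl; exact hstep l hl
    | succ d ih =>
      intro l hl
      exact (ih l (by omega)).trans (hstep (l + d + 1) (by omega))
  refine ⟨fun l => z (b l) (part R l), ?_, ?_⟩
  · intro l l' hll
    have h1 : (l : ℕ) < l' := hll
    have h2 := l'.2
    have h3 := hmono (l' - l - 1) l (by omega)
    have e : (l : ℕ) + (l' - l - 1) + 1 = l' := by omega
    rw [e] at h3
    exact h3
  · intro x y
    have hx := hz1 (b x) (hb1 x (by omega)) (part R x)
      ((part_mono R (by omega : (x : ℕ) ≤ k - 1)).trans hpc)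
    have hy := hz1 (b y) (hb1 y (by omega)) (part R y)
      ((part_mono R (by omega : (y : ℕ) ≤ k - 1)).trans hpc)
    rw [← rel_iff τ x y, ← hR, ← hb2 x (by omega) y (by omega)]
    constructor
    · intro h
      have h3 : Quotient.mk s (z (b x) (part R x)) = Quotient.mk s (z (b y) (part R y)) :=
        Quotient.sound h
      rwa [hx, hy] at h3
    · intro h
      have h3 : Quotient.mk s (z (b x) (part R x)) = Quotient.mk s (z (b y) (part R y)) := by
        rw [hx, hy, h]
      exact Quotient.exact h3

end Pool.Agent.KS6_93.SP
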