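import Pool.Agent.KS6_93.SP.Asymp

/-!
# The upper bound for the growth exponent
-/

set_option autoImplicit false

open Finset Filter Topology

namespace Pool.Agent.KS6_93.SP

open Pool.Agent.T6.H85.SetPart

/-- integer roots -/
theorem exists_root (e T N : ℕ) (he : 1 ≤ e) (hN : T ^ e ≤ N) :
    ∃ t, T ≤ t ∧ t ^ e ≤ N ∧ N < (t + 1) ^ e := by
  classical
  have hTN : T ≤ N := (Nat.le_self_pow (by omega) T).trans hN
  refine ⟨Nat.findGreatest (fun t => t ^ e ≤ N) N, Nat.le_findGreatest hTN hN,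
    Nat.findGreatest_spec (P := fun t => t ^ e ≤ N) hTN hN, ?_⟩
  by_contra hcon
  push Not at hcon
  have h1 : Nat.findGreatest (fun t => t ^ e ≤ N) N + 1 ≤ N :=
    (Nat.le_self_pow (by omega) _).trans hcon
  have h2 := Nat.le_findGreatest (P := fun t => t ^ e ≤ N) h1 hcon
  omega

/-- passing from `t ^ e` to the numbers between `t ^ e` and `(t + 1) ^ e` -/
theorem interp {k : ℕ} (τ : Setoid (Fin k)) (e t N : ℕ) (ht : 2 ≤ t) (he : 1 ≤ e)
    (h1 : t ^ e ≤ N) (h2 : N < (t + 1) ^ e) :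
    Real.log (A τ N) / (N * Real.log N) ≤
      Real.log (A τ (t ^ e)) / ((t ^ e : ℕ) * Real.log ((t ^ e : ℕ) : ℝ)) +
        (1 - ((t : ℝ) / (t + 1)) ^ e) := by
  have hte : 2 ≤ t ^ e := ht.trans (Nat.le_self_pow (by omega) t)
  obtain ⟨j, hj⟩ := Nat.exists_eq_add_of_le h1
  set M := t ^ e with hM
  have hMR : (2 : ℝ) ≤ M := by exact_mod_cast hte
  have hMN : (M : ℝ) ≤ N := by exact_mod_cast h1
  have hNR : (2 : ℝ) ≤ N := by linarith
  have hlogM : 0 < Real.log (M : ℝ) := Real.log_pos (by linarith)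
  have hlogN : 0 < Real.log (N : ℝ) := Real.log_pos (by linarith)
  have hlogMN : Real.log (M : ℝ) ≤ Real.log (N : ℝ) := Real.log_le_log (by linarith) hMN
  have hlogA : 0 ≤ Real.log (A τ M : ℝ) := Real.log_natCast_nonneg _
  have hjR : (j : ℝ) = N - M := by
    rw [hj]; push_cast; ring
  have hA : Real.log (A τ N) ≤ Real.log (A τ M) + j * Real.log N := by
    rcases Nat.eq_zero_or_pos (A τ N) with h | h
    · rw [h]; simp only [Nat.cast_zero, Real.log_zero]; positivity
    · have h3 := A_add τ M j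
      rw [← hj] at h3
      have hApos : 0 < A τ M := by
        rcases Nat.eq_zero_or_pos (A τ M) with h' | h'
        · rw [h', zero_mul] at h3; omega
        · exact h'
      have h4 : (A τ N : ℝ) ≤ (A τ M : ℝ) * (N : ℝ) ^ j := by exact_mod_cast h3
      have h5 : (0 : ℝ) < A τ N := by exact_mod_cast h
      have h6 : (0 : ℝ) < A τ M := by exact_mod_cast hApos
      have h7 := Real.log_le_log h5 h4
      rwa [Real.log_mul h6.ne' (by positivity), Real.log_pow] at h7
  have hstep1 : Real.log (A τ N) / (N * Real.log N) ≤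
      Real.log (A τ M) / (N * Real.log N) + j / N := by
    have e1 : Real.log (A τ M) / (N * Real.log N) + j / N =
        (Real.log (A τ M) + j * Real.log N) / (N * Real.log N) := by
      field_simp
    rw [e1]
    exact div_le_div_of_nonneg_right hA (by positivity)
  have hstep2 : Real.log (A τ M) / (N * Real.log N) ≤ Real.log (A τ M) / (M * Real.log M) := by
    apply div_le_div_of_nonneg_left hlogA (by positivity)
    exact mul_le_mul hMN hlogMN hlogM.le (by positivity)
  have hstep3 : (j : ℝ) / N ≤ 1 - ((t : ℝ) / (t + 1)) ^ e := by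
    have h8 : (N : ℝ) ≤ ((t : ℝ) + 1) ^ e := by exact_mod_cast h2.le
    have e2 : (j : ℝ) / N = 1 - M / N := by
      rw [hjR]; field_simp
    have e3 : ((t : ℝ) / (t + 1)) ^ e = M / ((t : ℝ) + 1) ^ e := by
      rw [div_pow, hM]; push_cast; rfl
    have h9 : (M : ℝ) / ((t : ℝ) + 1) ^ e ≤ M / N :=
      div_le_div_of_nonneg_left (by positivity) (by positivity) h8
    rw [e2, e3]
    linarith
  linarith

/-- **The upper bound.** For a partition `τ` of `[k]` with `r` blocks and every `c ≥ 1` with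
`k ≤ r + c` the growth exponent is at most `1 - 1 / c`. -/
theorem limsup_bound {k : ℕ} (τ : Setoid (Fin k)) (c : ℕ) (hk : 1 ≤ k) (hc1 : 1 ≤ c)
    (hc : k ≤ Nat.card (Quotient τ) + c) (ε : ℝ) (hε : 0 < ε) :
    ∀ᶠ N : ℕ in atTop, Real.log (A τ N) / (N * Real.log N) ≤ 1 - 1 / (c : ℝ) + ε := by
  have hcR : (1 : ℝ) ≤ c := by exact_mod_cast hc1
  obtain ⟨s, hs⟩ := exists_nat_one_div_lt (show 0 < ε / 4 by linarith)
  set e := c * s + 1 with he
  have hs' : 1 / ((c : ℝ) * (c * s + 1)) ≤ ε / 4 := by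
    refine le_trans ?_ hs.le
    apply one_div_le_one_div_of_le (by positivity)
    have hs0 : (0 : ℝ) ≤ s := Nat.cast_nonneg s
    nlinarith [mul_nonneg (sub_nonneg.2 hcR) hs0, mul_nonneg (by linarith : (0 : ℝ) ≤ c)
      (mul_nonneg (sub_nonneg.2 hcR) hs0)]
  have l1 : Tendsto (fun t : ℕ => Real.log 4 / Real.log ((t ^ e : ℕ) : ℝ)) atTop (𝓝 0) := by
    apply Tendsto.div_atTop tendsto_const_nhds
    exact Real.tendsto_log_atTop.comp (tendsto_natCast_atTop_atTop.comp
      (tendsto_pow_atTop (by omega)))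
  have l2 : Tendsto (fun t : ℕ => (c : ℝ) * (k * k) / t) atTop (𝓝 0) :=
    tendsto_const_div_atTop_nhds_zero_nat _
  have l3 : Tendsto (fun t : ℕ => 1 - ((t : ℝ) / (t + 1)) ^ e) atTop (𝓝 0) := by
    have h1 : Tendsto (fun t : ℕ => (t : ℝ) / (t + 1)) atTop (𝓝 1) :=
      tendsto_natCast_div_add_atTop 1
    have h2 := (h1.pow e).const_sub 1
    rwa [one_pow, sub_self] at h2
  have ev := (l1.eventually (gt_mem_nhds (show 0 < ε / 4 by linarith))).and
    ((l2.eventually (gt_mem_nhds (show 0 < ε / 4 by linarith))).and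
      ((l3.eventually (gt_mem_nhds (show 0 < ε / 4 by linarith))).and (eventually_ge_atTop 2)))
  obtain ⟨T, hT⟩ := eventually_atTop.1 ev
  filter_upwards [eventually_ge_atTop (T ^ e)] with N hN
  obtain ⟨t, hTt, h1, h2⟩ := exists_root e T N (by omega) hN
  obtain ⟨b1, b2, b3, b4⟩ := hT t hTt
  have i1 := interp τ e t N b4 (by omega) h1 h2
  have i2 := seq_ineq τ c hk hc1 hc s t b4
  rw [← he] at i2
  have e1 : ((c : ℝ) - 1) / c = 1 - 1 / c := by
    field_simp
  rw [e1] at i2
  linarith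

end Pool.Agent.KS6_93.SP
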