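import Pool.Agent.KS6_93.SP.Hit

/-!
# Almost all blocks meet at most `k - r` intervals
-/

set_option autoImplicit false

open Finset

namespace Pool.Agent.KS6_93.SP

open Pool.Agent.T6.H85.SetPart

theorem sum_choose {m n k : ℕ} (s : Setoid (Fin (m * n))) (τ : Setoid (Fin k)) (c : ℕ)
    (hk : 1 ≤ k) (hc1 : 1 ≤ c) (hc : k ≤ Nat.card (Quotient τ) + c) (hs : ¬ Contains s τ)
    [Fintype (Quotient s)] :
    ∑ B : Quotient s, ((hset s B).card - 1).choose c ≤ k * k * m ^ c := by
  classical
  set P : Quotient s → Finset (Fin m) → Prop := fun B S =>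
    S ⊆ hset s B ∧ ∃ I ∈ hset s B, ∀ J ∈ S, I < J with hP
  calc ∑ B : Quotient s, ((hset s B).card - 1).choose c
      ≤ ∑ B : Quotient s, ∑ S ∈ powersetCard c (univ : Finset (Fin m)),
          (if P B S then 1 else 0) := by
        apply sum_le_sum
        intro B _
        rw [← sum_filter, sum_const, smul_eq_mul, mul_one]
        by_cases hne : (hset s B).Nonempty
        · set I := (hset s B).min' hne with hI
          have hIm : I ∈ hset s B := min'_mem _ _
          rw [← card_erase_of_mem hIm, ← card_powersetCard]
          apply card_le_card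
          intro S hS
          rw [mem_powersetCard] at hS
          rw [mem_filter, mem_powersetCard]
          refine ⟨⟨subset_univ _, hS.2⟩, hS.1.trans (erase_subset _ _), I, hIm, ?_⟩
          intro J hJ
          have hJ' := hS.1 hJ
          rw [mem_erase] at hJ'
          exact lt_of_le_of_ne (min'_le _ _ hJ'.2) hJ'.1.symm
        · rw [not_nonempty_iff_eq_empty] at hne
          have h0 : ((hset s B).card - 1).choose c = 0 := by
            rw [hne, card_empty, Nat.zero_sub]
            exact Nat.choose_eq_zero_of_lt hc1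
          rw [h0]
          exact Nat.zero_le _
    _ = ∑ S ∈ powersetCard c (univ : Finset (Fin m)),
          ∑ B : Quotient s, (if P B S then 1 else 0) := sum_comm
    _ ≤ ∑ S ∈ powersetCard c (univ : Finset (Fin m)), k * k := by
        apply sum_le_sum
        intro S hS
        rw [mem_powersetCard] at hS
        rw [← sum_filter, sum_const, smul_eq_mul, mul_one]
        have hex : ∀ B ∈ univ.filter (fun B => P B S), ∃ I, I ∈ hset s B ∧ ∀ J ∈ S, I < J := by
          intro B hB
          obtain ⟨I, hI, hIJ⟩ := (mem_filter.1 hB).2.2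
          exact ⟨I, hI, hIJ⟩
        have hSne : S.Nonempty := card_pos.1 (by omega)
        obtain ⟨J₀, hJ₀⟩ := hSne
        have : Nonempty (Fin m) := ⟨J₀⟩
        choose! I₀ hI₀ using hex
        set e := S.orderEmbOfFin hS.2 with he
        refine (hit s τ c hk hc hs _
          (fun B p => if h : 1 ≤ p ∧ p ≤ c then e ⟨p - 1, by omega⟩ else I₀ B) ?_ ?_).le
        · intro B hB p hp
          have hB' := (mem_filter.1 hB).2.1
          have hmem : ∀ J ∈ hset s B, Hits s B J := by
            intro J hJ
            unfold hset at hJ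
            exact (mem_filter.1 hJ).2
          by_cases h : 1 ≤ p
          · rw [dif_pos ⟨h, hp⟩]
            exact hmem _ (hB' (S.orderEmbOfFin_mem hS.2 _))
          · rw [dif_neg (by omega)]
            exact hmem _ (hI₀ B hB).1
        · intro B hB B' hB' p hp
          rw [dif_pos (by omega : 1 ≤ p + 1 ∧ p + 1 ≤ c)]
          by_cases h : 1 ≤ p
          · rw [dif_pos ⟨h, hp.le⟩]
            apply (S.orderEmbOfFin hS.2).strictMono
            rw [Fin.lt_def]
            simp only
            omega
          · rw [dif_neg (by omega)]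
            exact (hI₀ B hB).2 _ (S.orderEmbOfFin_mem hS.2 _)
    _ = k * k * (m.choose c) := by
        rw [sum_const, card_powersetCard, card_univ, Fintype.card_fin, smul_eq_mul]
        ring
    _ ≤ _ := Nat.mul_le_mul_left _ (Nat.choose_le_pow _ _)

theorem le_choose (h c : ℕ) (hc : 1 ≤ c) : h ≤ c + c * (h - 1).choose c := by
  have h1 := card_le_choose (h - 1) c hc
  have h2 : (c - 1) + 1 = c := by omega
  omega

theorem repI_repB {m n k : ℕ} (s : Setoid (Fin (m * n))) (τ : Setoid (Fin k)) (c : ℕ)
    (hk : 1 ≤ k) (hc1 : 1 ≤ c) (hc : k ≤ Nat.card (Quotient τ) + c) (hs : ¬ Contains s τ) :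
    (repI s).card ≤ c * (repB s).card + c * (k * k * m ^ c) := by
  classical
  have h1 := sum_choose s τ c hk hc1 hc hs
  have h2 := card_repI_le s
  have h3 := Nat.mul_le_mul_left c (card_quot_le s)
  have h4 : ∑ B : Quotient s, (hset s B).card ≤
      ∑ B : Quotient s, (c + c * ((hset s B).card - 1).choose c) :=
    sum_le_sum fun B _ => le_choose _ _ hc1
  rw [sum_add_distrib, ← mul_sum, sum_const, smul_eq_mul, card_univ] at h4
  have h5 := Nat.mul_le_mul_left c h1
  have h6 : Fintype.card (Quotient s) * c = c * Fintype.card (Quotient s) := mul_comm _ _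
  omega

end Pool.Agent.KS6_93.SP
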